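import Pool.Agent.Helper10K9.FlagDefs

/-!
# Frames adapted to a transverse sphere of full flags

From a transverse `n`-sphere of full flags (`n ≥ 2`) we construct a continuous family of invertible
matrices `A x`, `x ∈ S^n`, whose columns satisfy `A (-x) e_j = ε j • A x e_(rev j)`.
-/

set_option autoImplicit false

namespace Pool.Agent.Helper27K9.FlagFrame

open Pool.Agent.Helper10K9.FS

section Oblique

variable {V : Type*} [NormedAddCommGroup V] [InnerProductSpace ℝ V] [FiniteDimensional ℝ V]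

/-- `1 - P_G P_F` is invertible if `F ∩ G = 0`. -/
lemma isUnit_one_sub {F G : Submodule ℝ V} (h : F ⊓ G = ⊥) :
    IsUnit (1 - G.starProjection * F.starProjection : V →L[ℝ] V) := by
  have : CompleteSpace V := FiniteDimensional.complete ℝ V
  rw [ContinuousLinearMap.isUnit_iff_bijective]
  have hinj : Function.Injective (1 - G.starProjection * F.starProjection : V →L[ℝ] V) := by
    rw [injective_iff_map_eq_zero]
    intro v hv
    have hv' : v = G.starProjection (F.starProjection v) := by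
      have : v - G.starProjection (F.starProjection v) = 0 := by simpa using hv
      exact sub_eq_zero.mp this
    have hG : v ∈ G := by
      rw [hv']; exact Submodule.starProjection_apply_mem _ _
    have h1 : ‖v‖ ≤ ‖F.starProjection v‖ := by
      conv_lhs => rw [hv']
      exact Submodule.norm_starProjection_apply_le _ _
    have h2 : ‖F.starProjection v‖ = ‖v‖ :=
      le_antisymm (Submodule.norm_starProjection_apply_le _ _) h1
    have hF : v ∈ F := (Submodule.mem_iff_norm_starProjection F v).mpr h2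
    have : v ∈ F ⊓ G := ⟨hF, hG⟩
    rw [h] at this
    simpa using this
  refine ⟨hinj, ?_⟩
  exact (LinearMap.injective_iff_surjective
    (f := ((1 - G.starProjection * F.starProjection : V →L[ℝ] V) : V →ₗ[ℝ] V))).mp hinj

/-- The oblique projection onto `F` along `G`. -/
noncomputable def obl (F G : Submodule ℝ V) : V →L[ℝ] V :=
  Ring.inverse (1 - G.starProjection * F.starProjection) * (1 - G.starProjection)

lemma obl_left {F G : Submodule ℝ V} (h : F ⊓ G = ⊥) {f : V} (hf : f ∈ F) : obl F G f = f := by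
  have h1 : (1 - G.starProjection : V →L[ℝ] V) f
      = (1 - G.starProjection * F.starProjection : V →L[ℝ] V) f := by
    simp [Submodule.starProjection_eq_self_iff.mpr hf]
  unfold obl
  rw [mul_apply_eq_comp, h1, ← mul_apply_eq_comp,
    Ring.inverse_mul_cancel _ (isUnit_one_sub h)]
  rfl

lemma obl_right {F G : Submodule ℝ V} {g : V} (hg : g ∈ G) : obl F G g = 0 := by
  unfold obl
  rw [mul_apply_eq_comp]
  simp [Submodule.starProjection_eq_self_iff.mpr hg]

lemma eq_obl {F G : Submodule ℝ V} (h : F ⊓ G = ⊥) (h' : F ⊔ G = ⊤) {T : V →L[ℝ] V}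
    (hF : ∀ f ∈ F, T f = f) (hG : ∀ g ∈ G, T g = 0) : T = obl F G := by
  ext v
  obtain ⟨f, hf, g, hg, rfl⟩ := Submodule.mem_sup.mp (h' ▸ Submodule.mem_top : v ∈ F ⊔ G)
  rw [map_add, map_add, hF f hf, hG g hg, obl_left h hf, obl_right hg]

lemma obl_mem {F G : Submodule ℝ V} (h : F ⊓ G = ⊥) (h' : F ⊔ G = ⊤) (v : V) :
    obl F G v ∈ F := by
  obtain ⟨f, hf, g, hg, rfl⟩ := Submodule.mem_sup.mp (h' ▸ Submodule.mem_top : v ∈ F ⊔ G)
  rw [map_add, obl_left h hf, obl_right hg, add_zero]
  exact hf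

lemma sub_obl_mem {F G : Submodule ℝ V} (h : F ⊓ G = ⊥) (h' : F ⊔ G = ⊤) (v : V) :
    v - obl F G v ∈ G := by
  obtain ⟨f, hf, g, hg, rfl⟩ := Submodule.mem_sup.mp (h' ▸ Submodule.mem_top : v ∈ F ⊔ G)
  rw [map_add, obl_left h hf, obl_right hg, add_zero]
  simpa using hg

lemma continuous_obl {X : Type*} [TopologicalSpace X] {F G : X → Submodule ℝ V}
    (hF : Continuous fun x => (F x).starProjection) (hG : Continuous fun x => (G x).starProjection)
    (h : ∀ x, F x ⊓ G x = ⊥) : Continuous fun x => obl (F x) (G x) := by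
  have : CompleteSpace V := FiniteDimensional.complete ℝ V
  unfold obl
  refine Continuous.mul ?_ (continuous_const.sub hG)
  rw [continuous_iff_continuousAt]
  intro x
  obtain ⟨u, hu⟩ := isUnit_one_sub (h x)
  have h1 : ContinuousAt (Ring.inverse : (V →L[ℝ] V) → (V →L[ℝ] V)) (u : V →L[ℝ] V) :=
    NormedRing.inverse_continuousAt u
  have h2 : ContinuousAt (fun x => (1 - (G x).starProjection * (F x).starProjection : V →L[ℝ] V))
      x := (continuous_const.sub (hG.mul hF)).continuousAt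
  have h3 : ContinuousAt (Ring.inverse : (V →L[ℝ] V) → (V →L[ℝ] V))
      ((fun x => (1 - (G x).starProjection * (F x).starProjection : V →L[ℝ] V)) x) := by
    simpa [← hu] using h1
  exact ContinuousAt.comp (g := (Ring.inverse : (V →L[ℝ] V) → (V →L[ℝ] V))) h3 h2

end Oblique

section Sect

/-- A continuous family of idempotents over `[0,1] × X`, `X` compact, allows to transport a
nowhere zero section from `0` to `1`. -/
lemma exists_section {X : Type*} [PseudoMetricSpace X] [CompactSpace X]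
    {V : Type*} [NormedAddCommGroup V] [NormedSpace ℝ V]
    (e : unitInterval → X → V →L[ℝ] V)
    (he : Continuous fun p : unitInterval × X => e p.1 p.2)
    (hid : ∀ t x, e t x * e t x = e t x) (v : V) (hv : v ≠ 0) (h0 : ∀ x, e 0 x v = v) :
    ∃ l : X → V, Continuous l ∧ ∀ x, l x ≠ 0 ∧ e 1 x (l x) = l x := by
  have huc : UniformContinuous fun p : unitInterval × X => e p.1 p.2 :=
    CompactSpace.uniformContinuous_of_continuous he
  obtain ⟨δ, hδ, hd⟩ := Metric.uniformContinuous_iff.mp huc 1 one_pos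
  obtain ⟨K, hK⟩ := exists_nat_one_div_lt hδ
  have hK0 : (0 : ℝ) < (K : ℝ) + 1 := by positivity
  let τ : ℕ → unitInterval := fun k => Set.projIcc (0 : ℝ) 1 zero_le_one ((k : ℝ) / (K + 1))
  have hτ : ∀ k, dist (τ (k + 1)) (τ k) < δ := by
    intro k
    have h1 : dist (τ (k + 1)) (τ k) ≤ dist (((k + 1 : ℕ) : ℝ) / (K + 1)) ((k : ℝ) / (K + 1)) := by
      have := (LipschitzWith.projIcc (zero_le_one : (0 : ℝ) ≤ 1)).dist_le_mul
        (((k + 1 : ℕ) : ℝ) / (K + 1)) ((k : ℝ) / (K + 1))
      rw [NNReal.coe_one, one_mul] at this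
      exact this
    refine lt_of_le_of_lt h1 ?_
    have h2 : dist (((k + 1 : ℕ) : ℝ) / (K + 1)) ((k : ℝ) / (K + 1)) = 1 / ((K : ℝ) + 1) := by
      rw [Real.dist_eq]
      have : ((k + 1 : ℕ) : ℝ) / (K + 1) - (k : ℝ) / (K + 1) = 1 / ((K : ℝ) + 1) := by
        push_cast; ring
      rw [this, abs_of_pos (by positivity)]
    rw [h2]; exact hK
  have key : ∀ k : ℕ, ∃ l : X → V, Continuous l ∧ ∀ x, l x ≠ 0 ∧ e (τ k) x (l x) = l x := by
    intro k
    induction k with
    | zero =>
      refine ⟨fun _ => v, continuous_const, fun x => ⟨hv, ?_⟩⟩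
      have : τ 0 = 0 := by
        simp [τ, Set.projIcc]
      rw [this]; exact h0 x
    | succ k ih =>
      obtain ⟨l, hl, hl'⟩ := ih
      refine ⟨fun x => e (τ (k + 1)) x (l x), ?_, fun x => ⟨?_, ?_⟩⟩
      · have h1 : Continuous fun x => e (τ (k + 1)) x :=
          he.comp (Continuous.prodMk continuous_const continuous_id)
        exact h1.clm_apply hl
      · intro hz
        have h1 : ‖(e (τ (k + 1)) x - e (τ k) x) (l x)‖ = ‖l x‖ := by
          have hz' : e (τ (k + 1)) x (l x) = 0 := hz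
          rw [sub_apply, hz', (hl' x).2, zero_sub, norm_neg]
        have h2 : ‖e (τ (k + 1)) x - e (τ k) x‖ < 1 := by
          have h3 : dist ((τ (k + 1), x) : unitInterval × X) (τ k, x) < δ := by
            rw [Prod.dist_eq]
            exact max_lt (hτ k) (by simpa using hδ)
          have := hd h3
          rwa [dist_eq_norm] at this
        have h3 : ‖(e (τ (k + 1)) x - e (τ k) x) (l x)‖ < ‖l x‖ := by
          calc ‖(e (τ (k + 1)) x - e (τ k) x) (l x)‖
              ≤ ‖e (τ (k + 1)) x - e (τ k) x‖ * ‖l x‖ := ContinuousLinearMap.le_opNorm _ _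
            _ < 1 * ‖l x‖ := by
                exact mul_lt_mul_of_pos_right h2 (norm_pos_iff.mpr (hl' x).1)
            _ = ‖l x‖ := one_mul _
        exact absurd h1 h3.ne
      · rw [← mul_apply_eq_comp, hid]
  have h1 : τ (K + 1) = 1 := by
    have : (((K + 1 : ℕ) : ℝ) / (K + 1)) = 1 := by
      push_cast; exact div_self hK0.ne'
    simp only [τ, this]
    exact Set.projIcc_right _
  have := key (K + 1)
  rwa [h1] at this

end Sect

section Sphere

/-- The homotopy from the constant map at the pole to the retraction onto the upper half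
sphere. -/
noncomputable def hom {n : ℕ} (t : ℝ) (x : E (n + 1)) : E (n + 1) :=
  WithLp.toLp 2 (Fin.cons (Real.sqrt (1 - t ^ 2 * (1 - x 0 ^ 2))) (fun i : Fin n => t * x i.succ))

lemma sphere_sum {n : ℕ} {x : E (n + 1)} (hx : x ∈ Metric.sphere (0 : E (n + 1)) 1) :
    x 0 ^ 2 + ∑ i : Fin n, x i.succ ^ 2 = 1 := by
  have h := mem_sphere_zero_iff_norm.mp hx
  have h2 : ‖x‖ ^ 2 = 1 := by rw [h]; norm_num
  rw [EuclideanSpace.norm_sq_eq, Fin.sum_univ_succ] at h2
  simpa using h2

lemma hom_mem {n : ℕ} {t : ℝ} (ht : t ∈ Set.Icc (0 : ℝ) 1) {x : E (n + 1)}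
    (hx : x ∈ Metric.sphere (0 : E (n + 1)) 1) : hom t x ∈ Metric.sphere (0 : E (n + 1)) 1 := by
  have hs := sphere_sum hx
  have h0 : 0 ≤ 1 - x 0 ^ 2 := by
    have : 0 ≤ ∑ i : Fin n, x i.succ ^ 2 := Finset.sum_nonneg fun i _ => sq_nonneg _
    linarith
  have h1 : 1 - x 0 ^ 2 ≤ 1 := by nlinarith [sq_nonneg (x 0)]
  have ht2 : t ^ 2 ≤ 1 := by nlinarith [ht.1, ht.2]
  have h2 : 0 ≤ 1 - t ^ 2 * (1 - x 0 ^ 2) := by nlinarith [sq_nonneg t]
  rw [mem_sphere_zero_iff_norm]
  have h3 : ‖hom t x‖ ^ 2 = 1 := by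
    rw [EuclideanSpace.norm_sq_eq, Fin.sum_univ_succ]
    simp only [hom, Fin.cons_zero, Fin.cons_succ, Real.norm_eq_abs, sq_abs]
    rw [Real.sq_sqrt h2]
    have : ∑ i : Fin n, (t * x i.succ) ^ 2 = t ^ 2 * ∑ i : Fin n, x i.succ ^ 2 := by
      rw [Finset.mul_sum]; exact Finset.sum_congr rfl fun i _ => by ring
    rw [this]
    linear_combination t ^ 2 * hs
  have h4 : (‖hom t x‖ - 1) * (‖hom t x‖ + 1) = 0 := by linear_combination h3
  rcases mul_eq_zero.mp h4 with h | h
  · linarith
  · have := norm_nonneg (hom t x); linarith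

lemma continuous_hom {n : ℕ} : Continuous fun p : ℝ × E (n + 1) => hom p.1 p.2 := by
  unfold hom
  refine (PiLp.continuous_toLp 2 _).comp ?_
  refine continuous_pi fun i => ?_
  refine Fin.cases ?_ (fun j => ?_) i
  · simp only [Fin.cons_zero]
    fun_prop
  · simp only [Fin.cons_succ]
    fun_prop

lemma hom_zero {n : ℕ} (x y : E (n + 1)) : hom 0 x = hom 0 y := by
  unfold hom; simp

lemma hom_one {n : ℕ} {x : E (n + 1)} (hx : 0 ≤ x 0) : hom 1 x = x := by
  ext i
  refine Fin.cases ?_ (fun j => ?_) i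
  · simp [hom, Real.sqrt_sq hx]
  · simp [hom]

/-- The equator. -/
noncomputable def equ {n : ℕ} (y : E n) : E (n + 1) :=
  WithLp.toLp 2 (Fin.cons 0 (fun i : Fin n => y i))

lemma equ_mem {n : ℕ} {y : E n} (hy : y ∈ Metric.sphere (0 : E n) 1) :
    equ y ∈ Metric.sphere (0 : E (n + 1)) 1 := by
  rw [mem_sphere_zero_iff_norm] at hy ⊢
  have h : ‖equ y‖ ^ 2 = ‖y‖ ^ 2 := by
    rw [EuclideanSpace.norm_sq_eq, EuclideanSpace.norm_sq_eq, Fin.sum_univ_succ]
    simp [equ]
  have := (sq_eq_sq₀ (norm_nonneg _) (norm_nonneg _)).mp h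
  rw [this, hy]

lemma continuous_equ {n : ℕ} : Continuous (equ : E n → E (n + 1)) := by
  unfold equ
  refine (PiLp.continuous_toLp 2 _).comp ?_
  refine continuous_pi fun i => ?_
  refine Fin.cases ?_ (fun j => ?_) i
  · simp only [Fin.cons_zero]; exact continuous_const
  · simp only [Fin.cons_succ]
    fun_prop

lemma exists_equ {n : ℕ} {x : E (n + 1)} (hx : x ∈ Metric.sphere (0 : E (n + 1)) 1)
    (h0 : x 0 = 0) : ∃ y ∈ Metric.sphere (0 : E n) 1, equ y = x := by
  refine ⟨WithLp.toLp 2 (fun i : Fin n => x i.succ), ?_, ?_⟩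
  · have hs := sphere_sum hx
    rw [mem_sphere_zero_iff_norm]
    have h3 : ‖(WithLp.toLp 2 (fun i : Fin n => x i.succ) : E n)‖ ^ 2 = 1 := by
      rw [EuclideanSpace.norm_sq_eq]
      simp only [Real.norm_eq_abs, sq_abs]
      rw [h0] at hs
      linear_combination hs
    have h4 : (‖(WithLp.toLp 2 (fun i : Fin n => x i.succ) : E n)‖ - 1) *
        (‖(WithLp.toLp 2 (fun i : Fin n => x i.succ) : E n)‖ + 1) = 0 := by
      linear_combination h3
    rcases mul_eq_zero.mp h4 with h | h
    · linarith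
    · have := norm_nonneg (WithLp.toLp 2 (fun i : Fin n => x i.succ) : E n); linarith
  · ext i
    refine Fin.cases ?_ (fun j => ?_) i
    · simp [equ, h0]
    · simp [equ]

end Sphere

section Flags

variable {n d : ℕ}

/-- The unit sphere of `ℝ^(n+1)` as a type. -/
abbrev Sph (n : ℕ) : Type := Metric.sphere (0 : E (n + 1)) 1

lemma sup_eq_top {F G : FullFlag d} (h : Transverse F G) (i : Fin (d + 1)) :
    F.sub i ⊔ G.sub i.rev = ⊤ := by
  refine Submodule.eq_top_of_disjoint _ _ ?_ (disjoint_iff.mpr (h i))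
  rw [F.dim, G.dim, finrank_euclideanSpace_fin, Fin.val_rev]
  have := i.is_lt
  omega

/-- The projection onto `F_x^i` along `F_(-x)^(d-i)`. -/
noncomputable def pr (F : Sph n → FullFlag d) (x : Sph n) (i : Fin (d + 1)) : E d →L[ℝ] E d :=
  obl ((F x).sub i) ((F (-x)).sub i.rev)

variable {F : Sph n → FullFlag d}

lemma pr_mul_left (hT : ∀ x, Transverse (F x) (F (-x))) (x : Sph n) {i j : Fin (d + 1)}
    (hij : i ≤ j) : pr F x j * pr F x i = pr F x i := by
  ext1 v
  rw [mul_apply_eq_comp]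
  exact obl_left (hT x j) ((F x).mono hij (obl_mem (hT x i) (sup_eq_top (hT x) i) v))

lemma pr_mul_right (hT : ∀ x, Transverse (F x) (F (-x))) (x : Sph n) {i j : Fin (d + 1)}
    (hij : i ≤ j) : pr F x i * pr F x j = pr F x i := by
  ext1 v
  rw [mul_apply_eq_comp]
  have h1 : v - pr F x j v ∈ (F (-x)).sub i.rev :=
    (F (-x)).mono (Fin.rev_le_rev.mpr hij) (sub_obl_mem (hT x j) (sup_eq_top (hT x) j) v)
  have h2 : pr F x i (v - pr F x j v) = 0 := obl_right h1
  rw [map_sub, sub_eq_zero] at h2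
  exact h2.symm

lemma pr_neg (hT : ∀ x, Transverse (F x) (F (-x))) (x : Sph n) (i : Fin (d + 1)) :
    pr F (-x) i = 1 - pr F x i.rev := by
  symm
  refine eq_obl (hT (-x) i) (sup_eq_top (hT (-x)) i) ?_ ?_
  · intro f hf
    have h1 : pr F x i.rev f = 0 := by
      refine obl_right ?_
      rwa [Fin.rev_rev]
    simp [h1]
  · intro g hg
    rw [neg_neg] at hg
    have h1 : pr F x i.rev g = g := obl_left (hT x i.rev) hg
    simp [h1]

lemma continuous_pr (hF : Continuous F) (hT : ∀ x, Transverse (F x) (F (-x)))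
    (i : Fin (d + 1)) : Continuous fun x => pr F x i := by
  have h1 : Continuous fun x => ((F x).sub i).starProjection := by
    have : Continuous (FullFlag.proj ∘ F) := continuous_induced_dom.comp hF
    exact (continuous_apply i).comp this
  have h2 : Continuous fun x => ((F (-x)).sub i.rev).starProjection := by
    have : Continuous (FullFlag.proj ∘ F) := continuous_induced_dom.comp hF
    exact ((continuous_apply i.rev).comp this).comp continuous_neg
  exact continuous_obl h1 h2 fun x => hT x i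

/-- The projection onto the line `F_x^(i+1) ∩ F_(-x)^(d-i)`. -/
noncomputable def ee (F : Sph n → FullFlag d) (x : Sph n) (i : Fin d) : E d →L[ℝ] E d :=
  pr F x i.succ - pr F x i.castSucc

lemma continuous_ee (hF : Continuous F) (hT : ∀ x, Transverse (F x) (F (-x)))
    (i : Fin d) : Continuous fun x => ee F x i :=
  (continuous_pr hF hT _).sub (continuous_pr hF hT _)

lemma ee_neg (hT : ∀ x, Transverse (F x) (F (-x))) (x : Sph n) (i : Fin d) :
    ee F (-x) i = ee F x i.rev := by
  unfold ee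
  rw [pr_neg hT, pr_neg hT, Fin.rev_succ, Fin.rev_castSucc]
  abel

lemma ee_mul_self (hT : ∀ x, Transverse (F x) (F (-x))) (x : Sph n) (i : Fin d) :
    ee F x i * ee F x i = ee F x i := by
  have hle : i.castSucc ≤ i.succ := (Fin.castSucc_lt_succ).le
  unfold ee
  rw [sub_mul, mul_sub, mul_sub, pr_mul_left hT x le_rfl, pr_mul_left hT x hle,
    pr_mul_right hT x hle, pr_mul_left hT x le_rfl]
  abel

lemma ee_mul_of_ne (hT : ∀ x, Transverse (F x) (F (-x))) (x : Sph n) {i j : Fin d}
    (hij : i ≠ j) : ee F x i * ee F x j = 0 := by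
  unfold ee
  rcases lt_or_gt_of_ne hij with h | h
  · have h1 : i.succ ≤ j.castSucc := by
      rw [Fin.le_def, Fin.val_succ, Fin.val_castSucc]; exact h
    have h2 : i.succ ≤ j.succ := Fin.succ_le_succ_iff.mpr h.le
    have h3 : i.castSucc ≤ j.castSucc := Fin.castSucc_le_castSucc_iff.mpr h.le
    have h4 : i.castSucc ≤ j.succ := h3.trans (Fin.castSucc_lt_succ).le
    rw [sub_mul, mul_sub, mul_sub, pr_mul_right hT x h1, pr_mul_right hT x h2,
      pr_mul_right hT x h3, pr_mul_right hT x h4]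
    abel
  · have h1 : j.succ ≤ i.castSucc := by
      rw [Fin.le_def, Fin.val_succ, Fin.val_castSucc]; exact h
    have h2 : j.succ ≤ i.succ := Fin.succ_le_succ_iff.mpr h.le
    have h3 : j.castSucc ≤ i.castSucc := Fin.castSucc_le_castSucc_iff.mpr h.le
    have h4 : j.castSucc ≤ i.succ := h3.trans (Fin.castSucc_lt_succ).le
    rw [sub_mul, mul_sub, mul_sub, pr_mul_left hT x h1, pr_mul_left hT x h2,
      pr_mul_left hT x h3, pr_mul_left hT x h4]
    abel

lemma exists_ee (hT : ∀ x, Transverse (F x) (F (-x))) (x : Sph n) (i : Fin d) :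
    ∃ v : E d, v ≠ 0 ∧ ee F x i v = v := by
  by_contra hcon
  push Not at hcon
  have h0 : ∀ v, ee F x i v = 0 := by
    intro v
    by_contra hv
    refine hcon _ hv ?_
    rw [← mul_apply_eq_comp, ee_mul_self hT]
  have hle : (F x).sub i.succ ≤ (F x).sub i.castSucc := by
    intro v hv
    have h1 : pr F x i.succ v = v := obl_left (hT x i.succ) hv
    have h2 : pr F x i.succ v - pr F x i.castSucc v = 0 := by
      have := h0 v
      rwa [ee, sub_apply] at this
    rw [h1, sub_eq_zero] at h2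
    rw [h2]
    exact obl_mem (hT x i.castSucc) (sup_eq_top (hT x) i.castSucc) v
  have := Submodule.finrank_mono hle
  rw [(F x).dim, (F x).dim, Fin.val_succ, Fin.val_castSucc] at this
  omega

lemma line (hT : ∀ x, Transverse (F x) (F (-x))) (x : Sph n) (i : Fin d) {u v : E d}
    (hu : ee F x i u = u) (hv : ee F x i v = v) (hv0 : v ≠ 0) : ∃ c : ℝ, u = c • v := by
  -- the range of `ee` meets `F^i` trivially and is contained in `F^(i+1)`
  have hmem : ∀ w, ee F x i w ∈ (F x).sub i.succ := by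
    intro w
    rw [ee, sub_apply]
    exact Submodule.sub_mem _ (obl_mem (hT x i.succ) (sup_eq_top (hT x) i.succ) w)
      ((F x).mono (Fin.castSucc_lt_succ).le
        (obl_mem (hT x i.castSucc) (sup_eq_top (hT x) i.castSucc) w))
  have hpz : ∀ w, pr F x i.castSucc (ee F x i w) = 0 := by
    intro w
    rw [← mul_apply_eq_comp]
    have : pr F x i.castSucc * ee F x i = 0 := by
      unfold ee
      rw [mul_sub, pr_mul_right hT x (Fin.castSucc_lt_succ).le, pr_mul_right hT x le_rfl, sub_self]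
    rw [this]; rfl
  let R : Submodule ℝ (E d) := LinearMap.range ((ee F x i : E d →L[ℝ] E d) : E d →ₗ[ℝ] E d)
  have hR1 : R ≤ (F x).sub i.succ := by
    rintro _ ⟨w, rfl⟩
    exact hmem w
  have hR2 : R ⊓ (F x).sub i.castSucc = ⊥ := by
    rw [eq_bot_iff]
    rintro _ ⟨⟨w, rfl⟩, hw⟩
    have h1 : pr F x i.castSucc (ee F x i w) = ee F x i w := obl_left (hT x i.castSucc) hw
    rw [hpz] at h1
    exact (Submodule.mem_bot ℝ).mpr h1.symm
  have hR3 : Module.finrank ℝ R ≤ 1 := by
    have h1 := Submodule.finrank_sup_add_finrank_inf_eq R ((F x).sub i.castSucc)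
    have h2 : Module.finrank ℝ ↥(R ⊔ (F x).sub i.castSucc) ≤
        Module.finrank ℝ ((F x).sub i.succ) :=
      Submodule.finrank_mono (sup_le hR1 ((F x).mono (Fin.castSucc_lt_succ).le))
    rw [hR2, finrank_bot, (F x).dim] at h1
    rw [(F x).dim, Fin.val_succ] at h2
    rw [Fin.val_castSucc] at h1
    omega
  obtain ⟨w, hw⟩ := finrank_le_one_iff.mp hR3
  obtain ⟨a, ha⟩ := hw ⟨u, ⟨u, hu⟩⟩
  obtain ⟨b, hb⟩ := hw ⟨v, ⟨v, hv⟩⟩
  have ha' : a • (w : E d) = u := congrArg Subtype.val ha
  have hb' : b • (w : E d) = v := congrArg Subtype.val hb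
  have hb0 : b ≠ 0 := by
    rintro rfl
    rw [zero_smul] at hb'
    exact hv0 hb'.symm
  refine ⟨a / b, ?_⟩
  rw [← ha', ← hb', smul_smul, div_mul_cancel₀ _ hb0]

/-- The retraction onto the upper half sphere. -/
noncomputable def ret (x : Sph n) : Sph n := ⟨hom 1 x, hom_mem ⟨zero_le_one, le_rfl⟩ x.2⟩

lemma ret_of_nonneg {x : Sph n} (hx : 0 ≤ (x : E (n + 1)) 0) : ret x = x :=
  Subtype.ext (hom_one hx)

lemma exists_half (hF : Continuous F) (hT : ∀ x, Transverse (F x) (F (-x))) (i : Fin d) :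
    ∃ m : Sph n → E d, Continuous m ∧ ∀ x, ‖m x‖ = 1 ∧ ee F (ret x) i (m x) = m x := by
  obtain ⟨x0, hx0⟩ : ∃ x0 : E (n + 1), x0 ∈ Metric.sphere (0 : E (n + 1)) 1 :=
    ⟨EuclideanSpace.single 0 1, by simp⟩
  let N : Sph n := ⟨hom 0 x0, hom_mem ⟨le_rfl, zero_le_one⟩ hx0⟩
  obtain ⟨v, hv, hev⟩ := exists_ee hT N i
  let H : unitInterval × Sph n → Sph n := fun p => ⟨hom p.1 p.2, hom_mem p.1.2 p.2.2⟩
  have hH : Continuous H := by
    refine Continuous.subtype_mk ?_ _
    exact continuous_hom.comp (Continuous.prodMk (continuous_subtype_val.comp continuous_fst)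
      (continuous_subtype_val.comp continuous_snd))
  obtain ⟨l, hl, hl'⟩ := exists_section (fun t x => ee F (H (t, x)) i)
    ((continuous_ee hF hT i).comp hH) (fun t x => ee_mul_self hT _ i) v hv (by
      intro x
      have : H (0, x) = N := Subtype.ext (hom_zero _ _)
      simp only [this]
      exact hev)
  refine ⟨fun x => (‖l x‖)⁻¹ • l x, ?_, fun x => ⟨?_, ?_⟩⟩
  · exact (hl.norm.inv₀ fun x => norm_ne_zero_iff.mpr (hl' x).1).smul hl
  · rw [norm_smul, norm_inv, norm_norm]
    exact inv_mul_cancel₀ (norm_ne_zero_iff.mpr (hl' x).1)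
  · have h1 : H (1, x) = ret x := rfl
    rw [map_smul]
    have h2 := (hl' x).2
    rw [h1] at h2
    rw [h2]

lemma unit_line (hT : ∀ x, Transverse (F x) (F (-x))) (x : Sph n) (i : Fin d) {u v : E d}
    (hu : ee F x i u = u) (hv : ee F x i v = v) (hu1 : ‖u‖ = 1) (hv1 : ‖v‖ = 1) :
    u = (inner ℝ u v : ℝ) • v ∧ (inner ℝ u v : ℝ) ^ 2 = 1 := by
  have hv0 : v ≠ 0 := by
    rintro rfl
    simp at hv1
  obtain ⟨c, rfl⟩ := line hT x i hu hv hv0
  have h1 : (inner ℝ (c • v) v : ℝ) = c := by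
    rw [real_inner_smul_left, real_inner_self_eq_norm_sq, hv1]
    ring
  rw [h1]
  refine ⟨rfl, ?_⟩
  rw [norm_smul, hv1, mul_one] at hu1
  rw [← sq_abs, ← Real.norm_eq_abs, hu1]
  norm_num

lemma exists_eps (hn : 2 ≤ n) (hT : ∀ x, Transverse (F x) (F (-x)))
    {m : Fin d → Sph n → E d} (hm : ∀ i, Continuous (m i)) (hm1 : ∀ i x, ‖m i x‖ = 1)
    (hme : ∀ i x, ee F (ret x) i (m i x) = m i x) (i : Fin d) :
    ∃ ε : ℝ, (ε = 1 ∨ ε = -1) ∧
      ∀ x : Sph n, (x : E (n + 1)) 0 = 0 → m i (-x) = ε • m i.rev x := by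
  let Y : Type := Metric.sphere (0 : E n) 1
  let q : Y → Sph n := fun y => ⟨equ y, equ_mem y.2⟩
  have hq : Continuous q := (continuous_equ.comp continuous_subtype_val).subtype_mk _
  have key : ∀ x : Sph n, (x : E (n + 1)) 0 = 0 →
      m i (-x) = (inner ℝ (m i (-x)) (m i.rev x) : ℝ) • m i.rev x ∧
        (inner ℝ (m i (-x)) (m i.rev x) : ℝ) ^ 2 = 1 := by
    intro x hx
    have hnx : ((-x : Sph n) : E (n + 1)) 0 = 0 := by simp [hx]
    refine unit_line hT x i.rev ?_ ?_ (hm1 _ _) (hm1 _ _)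
    · have h1 := hme i (-x)
      rw [ret_of_nonneg hnx.ge, ee_neg hT] at h1
      exact h1
    · have h1 := hme i.rev x
      rw [ret_of_nonneg hx.ge] at h1
      exact h1
  have hpre : IsPreconnected (Set.univ : Set Y) := by
    have hrank : 1 < Module.rank ℝ (E n) := by
      rw [← Module.finrank_eq_rank, finrank_euclideanSpace_fin]
      exact_mod_cast hn
    have h1 : IsPreconnected (Metric.sphere (0 : E n) 1) := isPreconnected_sphere hrank 0 1
    exact (isPreconnected_iff_preconnectedSpace.mp h1).isPreconnected_univ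
  have hc : Continuous fun y : Y => (inner ℝ (m i (-(q y))) (m i.rev (q y)) : ℝ) :=
    Continuous.inner ((hm i).comp (continuous_neg.comp hq)) ((hm i.rev).comp hq)
  have h2 := hpre.eq_one_or_eq_neg_one_of_sq_eq hc.continuousOn (by
    intro y _
    exact (key (q y) (by simp [q, equ])).2)
  rcases h2 with h2 | h2
  · refine ⟨1, Or.inl rfl, fun x hx => ?_⟩
    obtain ⟨y, hy, hyx⟩ := exists_equ x.2 hx
    have h3 : q ⟨y, hy⟩ = x := Subtype.ext hyx
    have h4 := h2 (Set.mem_univ (⟨y, hy⟩ : Y))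
    simp only [h3, Pi.one_apply] at h4
    have h5 := (key x hx).1
    rwa [h4] at h5
  · refine ⟨-1, Or.inr rfl, fun x hx => ?_⟩
    obtain ⟨y, hy, hyx⟩ := exists_equ x.2 hx
    have h3 : q ⟨y, hy⟩ = x := Subtype.ext hyx
    have h4 := h2 (Set.mem_univ (⟨y, hy⟩ : Y))
    simp only [h3, Pi.neg_apply, Pi.one_apply] at h4
    have h5 := (key x hx).1
    rwa [h4] at h5

/-- Columns on the whole sphere. -/
lemma exists_columns (hn : 2 ≤ n) (hF : Continuous F) (hT : ∀ x, Transverse (F x) (F (-x))) :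
    ∃ (ε : Fin d → ℝ) (w : Fin d → Sph n → E d), (∀ i, ε i = 1 ∨ ε i = -1) ∧
      (∀ i, ε i.rev = ε i) ∧ (∀ i, Continuous (w i)) ∧
      (∀ i x, w i x ≠ 0) ∧ (∀ i x, ee F x i (w i x) = w i x) ∧
      ∀ i x, w i (-x) = ε i • w i.rev x := by
  choose m hm hm' using fun i => exists_half (n := n) (d := d) hF hT i
  have hm1 : ∀ i x, ‖m i x‖ = 1 := fun i x => (hm' i x).1
  have hme : ∀ i x, ee F (ret x) i (m i x) = m i x := fun i x => (hm' i x).2
  choose ε hε hrel using fun i => exists_eps hn hT hm hm1 hme i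
  obtain ⟨y0, hy0⟩ : ∃ y0 : E n, y0 ∈ Metric.sphere (0 : E n) 1 :=
    ⟨EuclideanSpace.single ⟨0, by omega⟩ 1, by simp⟩
  let x0 : Sph n := ⟨equ y0, equ_mem hy0⟩
  have hx0 : (x0 : E (n + 1)) 0 = 0 := by simp [x0, equ]
  have hprod : ∀ i, ε i * ε i.rev = 1 := by
    intro i
    have h1 := hrel i x0 hx0
    have h2 := hrel i.rev (-x0) (by simp [hx0])
    rw [neg_neg, Fin.rev_rev] at h2
    rw [h2, smul_smul] at h1
    have h3 : (1 - ε i * ε i.rev) • m i (-x0) = 0 := by
      rw [sub_smul, one_smul, sub_eq_zero]; exact h1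
    rcases smul_eq_zero.mp h3 with h | h
    · linarith
    · have := hm1 i (-x0)
      rw [h, norm_zero] at this
      norm_num at this
  have hsq : ∀ i, ε i.rev = ε i := by
    intro i
    have h1 := hprod i
    rcases hε i with h | h
    · rw [h] at h1 ⊢; linarith
    · rw [h] at h1 ⊢; linarith
  refine ⟨ε, fun i x => if 0 ≤ (x : E (n + 1)) 0 then m i x else ε i • m i.rev (-x), hε, hsq,
    ?_, ?_, ?_, ?_⟩
  · intro i
    refine Continuous.if_le (hm i) ?_ continuous_const ?_ ?_
    · exact ((hm i.rev).comp continuous_neg).const_smul (ε i)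
    · have : Continuous fun x : Sph n => (x : E (n + 1)) 0 := by fun_prop
      exact this
    · intro x hx
      have h1 := hrel i (-x) (by simp [← hx])
      rwa [neg_neg] at h1
  · intro i x
    have hne : ∀ j y, m j y ≠ 0 := fun j y h => by
      have := hm1 j y
      rw [h, norm_zero] at this
      norm_num at this
    simp only
    split_ifs with h
    · exact hne _ _
    · refine smul_ne_zero ?_ (hne _ _)
      rcases hε i with h | h <;> rw [h] <;> norm_num
  · intro i x
    simp only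
    split_ifs with h
    · have := hme i x
      rwa [ret_of_nonneg h] at this
    · have hx : 0 ≤ ((-x : Sph n) : E (n + 1)) 0 := by
        have : ((-x : Sph n) : E (n + 1)) 0 = -((x : E (n + 1)) 0) := by simp
        rw [this]; linarith
      have h1 := hme i.rev (-x)
      rw [ret_of_nonneg hx, ee_neg hT, Fin.rev_rev] at h1
      rw [map_smul, h1]
  · intro i x
    have hnx : ((-x : Sph n) : E (n + 1)) 0 = -((x : E (n + 1)) 0) := by simp
    simp only [hnx, neg_neg, Fin.rev_rev]
    rcases lt_trichotomy ((x : E (n + 1)) 0) 0 with h | h | h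
    · rw [if_pos (by linarith), if_neg (by linarith), smul_smul, hprod, one_smul]
    · rw [if_pos (by linarith), if_pos (by linarith)]
      exact hrel i x h
    · rw [if_neg (by linarith), if_pos (by linarith)]

end Flags

/-- **Frames of a transverse sphere.** -/
theorem exists_frame {n d : ℕ} (hn : 2 ≤ n) (S : Set (FullFlag d)) (hS : IsTransverseSphere n S) :
    ∃ (ε : Fin d → ℝ) (A : E (n + 1) → Matrix (Fin d) (Fin d) ℝ),
      (∀ i, ε i = 1 ∨ ε i = -1) ∧ (∀ i, ε i.rev = ε i) ∧
      ContinuousOn A (Metric.sphere 0 1) ∧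
      (∀ x ∈ Metric.sphere (0 : E (n + 1)) 1, (A x).det ≠ 0) ∧
      (∀ x ∈ Metric.sphere (0 : E (n + 1)) 1, ∀ i j, A (-x) i j = ε j * A x i j.rev) := by
  obtain ⟨hTr, ⟨h⟩⟩ := hS
  let F : Sph n → FullFlag d := fun x => (h.symm x : FullFlag d)
  have hF : Continuous F := continuous_subtype_val.comp h.symm.continuous
  have hT : ∀ x, Transverse (F x) (F (-x)) := by
    intro x
    refine hTr _ (h.symm x).2 _ (h.symm (-x)).2 ?_
    intro heq
    have h1 : x = -x := h.symm.injective (Subtype.ext heq)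
    have h2 : (x : E (n + 1)) = -(x : E (n + 1)) := congrArg Subtype.val h1
    have h3 : (x : E (n + 1)) = 0 := by
      ext i
      have h4 := congrArg (fun z : E (n + 1) => z i) h2
      simp only [PiLp.neg_apply] at h4
      simp only [PiLp.zero_apply]
      linarith
    have h4 := mem_sphere_zero_iff_norm.mp x.2
    rw [h3, norm_zero] at h4
    norm_num at h4
  obtain ⟨ε, w, hε, hrev, hwc, hw0, hwe, hsymm⟩ := exists_columns hn hF hT
  classical
  let A : E (n + 1) → Matrix (Fin d) (Fin d) ℝ := fun x => Matrix.of fun i j =>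
    if hx : x ∈ Metric.sphere (0 : E (n + 1)) 1 then w j ⟨x, hx⟩ i else 0
  have hA : ∀ (x : E (n + 1)) (hx : x ∈ Metric.sphere (0 : E (n + 1)) 1) i j,
      A x i j = w j ⟨x, hx⟩ i := by
    intro x hx i j
    simp only [A, Matrix.of_apply]
    rw [dif_pos hx]
  refine ⟨ε, A, hε, hrev, ?_, ?_, ?_⟩
  · rw [continuousOn_iff_continuous_domRestrict]
    refine continuous_matrix fun i j => ?_
    have h2 : Continuous fun x : Metric.sphere (0 : E (n + 1)) 1 => w j x i := by
      have h2 := hwc j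
      fun_prop
    refine h2.congr fun x => ?_
    exact (hA x x.2 i j).symm
  · intro x hx hdet
    obtain ⟨c, hc, hAc⟩ := Matrix.exists_mulVec_eq_zero_iff.mpr hdet
    apply hc
    ext k
    have hsum : ∑ j, c j • w j ⟨x, hx⟩ = 0 := by
      ext i
      have h1 := congrFun hAc i
      simp only [Matrix.mulVec, dotProduct, hA x hx, Pi.zero_apply] at h1
      have h4 : (∑ j, c j • w j ⟨x, hx⟩ : E d) i = ∑ j, w j ⟨x, hx⟩ i * c j := by
        simp [mul_comm]
      rw [h4, h1]
      rfl
    have h2 : ee F ⟨x, hx⟩ k (∑ j, c j • w j ⟨x, hx⟩) = c k • w k ⟨x, hx⟩ := by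
      rw [map_sum, Finset.sum_eq_single k]
      · rw [map_smul, hwe]
      · intro j _ hjk
        rw [map_smul, ← hwe j ⟨x, hx⟩, ← mul_apply_eq_comp, ee_mul_of_ne hT _ hjk.symm]
        simp
      · intro h; exact absurd (Finset.mem_univ k) h
    rw [hsum, map_zero] at h2
    rcases smul_eq_zero.mp h2.symm with h3 | h3
    · exact h3
    · exact absurd h3 (hw0 k _)
  · intro x hx i j
    have hnx : -x ∈ Metric.sphere (0 : E (n + 1)) 1 := by
      rw [mem_sphere_zero_iff_norm] at hx ⊢
      rwa [norm_neg]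
    rw [hA (-x) hnx, hA x hx]
    have h1 : (⟨-x, hnx⟩ : Sph n) = -⟨x, hx⟩ := rfl
    rw [h1, hsymm]
    simp

end Pool.Agent.Helper27K9.FlagFrame
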